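import Pool.Agent.Y524L.St
import Pool.Agent.Y708.SS.Aut

/-!
# Finite-state automorphisms of linear activity are linear over bounded
-/

set_option autoImplicit false
set_option linter.unusedSectionVars false

open Classical

namespace Pool.Agent.Y468.LA

open Pool.Agent.Y462.SS Pool.Agent.Y524L

variable {X : Type} [Finite X]

variable (X) in
/-- the words of length `n` -/
noncomputable def W (n : ℕ) : Finset (List X) := (List.finite_length_eq X n).toFinset

theorem mem_W {n : ℕ} {u : List X} : u ∈ W X n ↔ u.length = n := by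
  unfold W
  rw [Set.Finite.mem_toFinset, Set.mem_ofPred_eq]

/-- the number of the words of length `n` whose section has the property `P` -/
noncomputable def cnt (P : T X → Prop) (f : T X) (n : ℕ) : ℕ :=
  ((W X n).filter fun u => P (secW f u)).card

theorem cnt_add (P : T X → Prop) (f : T X) (n m : ℕ) :
    cnt P f (n + m) = ∑ v ∈ W X n, cnt P (secW f v) m := by
  unfold cnt
  rw [Finset.card_eq_sum_card_fiberwise (f := fun u : List X => u.take n) (t := W X n)]
  · apply Finset.sum_congr rfl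
    intro v hv
    rw [mem_W] at hv
    apply Finset.card_nbij' (fun u => u.drop n) (fun u => v ++ u)
    · intro u hu
      rw [Finset.mem_coe, Finset.mem_filter, Finset.mem_filter, mem_W] at hu
      rw [Finset.mem_coe, Finset.mem_filter, mem_W, ← secW_append]
      refine ⟨by rw [List.length_drop, hu.1.1]; omega, ?_⟩
      have h1 : v ++ u.drop n = u := by
        rw [← hu.2, List.take_append_drop]
      rw [h1]
      exact hu.1.2
    · intro u hu
      rw [Finset.mem_coe, Finset.mem_filter, mem_W, ← secW_append] at hu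
      rw [Finset.mem_coe, Finset.mem_filter, Finset.mem_filter, mem_W]
      refine ⟨⟨by rw [List.length_append, hv, hu.1], hu.2⟩, ?_⟩
      exact List.take_left' hv
    · intro u hu
      rw [Finset.mem_coe, Finset.mem_filter, Finset.mem_filter, mem_W] at hu
      change v ++ u.drop n = u
      rw [← hu.2, List.take_append_drop]
    · intro u _
      exact List.drop_left' hv
  · intro u hu
    rw [Finset.mem_coe, Finset.mem_filter, mem_W] at hu
    rw [Finset.mem_coe, mem_W, List.length_take, hu.1]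
    omega

theorem cnt_eq_sum (P : T X → Prop) (f : T X) (n : ℕ) :
    cnt P f n = ∑ v ∈ W X n, if P (secW f v) then 1 else 0 := by
  unfold cnt
  rw [Finset.card_filter]

theorem cnt_eq_zero {P : T X → Prop} {f : T X} {n : ℕ} :
    cnt P f n = 0 ↔ ∀ v : List X, v.length = n → ¬ P (secW f v) := by
  unfold cnt
  rw [Finset.card_eq_zero, Finset.filter_eq_empty_iff]
  simp only [mem_W]

/-! ### active words -/

/-- not trivial -/
def NT (f : T X) : Prop := f ≠ 1

/-- the number of the active words -/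
noncomputable def ac (f : T X) (n : ℕ) : ℕ := cnt NT f n

/-- not finitary -/
def NI (f : T X) : Prop := ∀ k, ac f k ≠ 0

theorem ac_one (m : ℕ) : ac (1 : T X) m = 0 := by
  unfold ac
  rw [cnt_eq_zero]
  intro v _
  rw [secW_one]
  exact fun h => h rfl

theorem ac_zero_add {f : T X} {n : ℕ} (h : ac f n = 0) (m : ℕ) : ac f (n + m) = 0 := by
  unfold ac at h ⊢
  rw [cnt_add]
  apply Finset.sum_eq_zero
  intro v hv
  rw [cnt_eq_zero] at h
  have h1 : secW f v = 1 := not_not.1 (h v (mem_W.1 hv))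
  rw [h1]
  exact ac_one m

theorem ac_zero_le {f : T X} {n m : ℕ} (h : ac f n = 0) (hm : n ≤ m) : ac f m = 0 := by
  obtain ⟨k, rfl⟩ := Nat.exists_eq_add_of_le hm
  exact ac_zero_add h k

theorem NI_child {f : T X} (h : NI f) (n : ℕ) : ∃ v : List X, v.length = n ∧ NI (secW f v) := by
  by_contra hcon
  push Not at hcon
  have h1 : ∀ v : List X, ∃ k, v.length = n → ac (secW f v) k = 0 := by
    intro v
    by_cases hv : v.length = n
    · have h2 := hcon v hv
      unfold NI at h2
      push Not at h2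
      obtain ⟨k, hk⟩ := h2
      exact ⟨k, fun _ => hk⟩
    · exact ⟨0, fun h => absurd h hv⟩
  choose k hk using h1
  apply h (n + (W X n).sup k)
  unfold ac
  rw [cnt_add]
  apply Finset.sum_eq_zero
  intro v hv
  exact ac_zero_le (hk v (mem_W.1 hv)) (Finset.le_sup hv)

theorem NI_of_sec {f : T X} {v : List X} (h : NI (secW f v)) : NI f := by
  intro k hk
  have h1 := ac_zero_add hk v.length
  rw [add_comm] at h1
  unfold ac at h1
  rw [cnt_add, Finset.sum_eq_zero_iff] at h1
  exact h k (h1 v (mem_W.2 rfl))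

theorem NI_ne_one {f : T X} (h : NI f) : f ≠ 1 := by
  rintro rfl
  exact h 0 (ac_one 0)

/-- the number of the words with non-finitary section -/
noncomputable def ni (f : T X) (n : ℕ) : ℕ := cnt NI f n

theorem ni_add (f : T X) (n m : ℕ) : ni f (n + m) = ∑ v ∈ W X n, ni (secW f v) m :=
  cnt_add _ _ _ _

theorem ac_add (f : T X) (n m : ℕ) : ac f (n + m) = ∑ v ∈ W X n, ac (secW f v) m :=
  cnt_add _ _ _ _

theorem ni_not {f : T X} (h : ¬ NI f) (m : ℕ) : ni f m = 0 := by
  unfold ni
  rw [cnt_eq_zero]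
  intro v _ hv
  exact h (NI_of_sec hv)

theorem ni_pos {f : T X} (h : NI f) (m : ℕ) : 1 ≤ ni f m := by
  rw [Nat.one_le_iff_ne_zero]
  unfold ni
  rw [Ne, cnt_eq_zero]
  push Not
  exact NI_child h m

theorem ni_le_ac (f : T X) (n : ℕ) : ni f n ≤ ac f n := by
  unfold ni ac cnt
  apply Finset.card_le_card
  intro u hu
  rw [Finset.mem_filter] at hu ⊢
  exact ⟨hu.1, NI_ne_one hu.2⟩

theorem ni_mono_add (f : T X) (n m : ℕ) : ni f n ≤ ni f (n + m) := by
  rw [ni_add]
  unfold ni
  rw [cnt_eq_sum]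
  apply Finset.sum_le_sum
  intro v _
  split_ifs with h
  · exact ni_pos h m
  · exact Nat.zero_le _

theorem ni_mono (f : T X) {n m : ℕ} (h : n ≤ m) : ni f n ≤ ni f m := by
  obtain ⟨k, rfl⟩ := Nat.exists_eq_add_of_le h
  exact ni_mono_add f n k

/-- bad: the number of the words with non-finitary section is unbounded -/
def Bad (f : T X) : Prop := ∀ c : ℕ, ∃ n, c < ni f n

section

variable {g : T X} (hf : (Set.range (secW g)).Finite)

include hf

theorem unif_J : ∃ J, ∀ v, ni (secW g v) J ≤ 1 → ∀ j, ni (secW g v) j ≤ 1 := by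
  have h1 : ∀ h : T X, ∃ j, (∃ j, 1 < ni h j) → 1 < ni h j := by
    intro h
    by_cases h2 : ∃ j, 1 < ni h j
    · obtain ⟨j, hj⟩ := h2
      exact ⟨j, fun _ => hj⟩
    · exact ⟨0, fun h3 => absurd h3 h2⟩
  choose j hj using h1
  refine ⟨hf.toFinset.sup j, fun v hv i => ?_⟩
  by_contra hcon
  rw [not_le] at hcon
  have h2 := hj _ ⟨i, hcon⟩
  have h3 : j (secW g v) ≤ hf.toFinset.sup j :=
    Finset.le_sup (f := j) (hf.mem_toFinset.2 ⟨v, rfl⟩)
  have h4 := ni_mono (secW g v) h3
  omega

theorem unif_K : ∃ K, ∀ v, ¬ NI (secW g v) → ac (secW g v) K = 0 := by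
  have h1 : ∀ h : T X, ∃ k, ¬ NI h → ac h k = 0 := by
    intro h
    by_cases h2 : NI h
    · exact ⟨0, fun h3 => absurd h2 h3⟩
    · have h3 := h2
      unfold NI at h3
      push Not at h3
      obtain ⟨k, hk⟩ := h3
      exact ⟨k, fun _ => hk⟩
  choose k hk using h1
  refine ⟨hf.toFinset.sup k, fun v hv => ?_⟩
  exact ac_zero_le (hk _ hv) (Finset.le_sup (f := k) (hf.mem_toFinset.2 ⟨v, rfl⟩))

theorem bad_lower : ∃ J, ∀ v, Bad (secW g v) → ∀ k, k ≤ ni (secW g v) (k * J) := by
  obtain ⟨J, hJ⟩ := unif_J hf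
  refine ⟨J, fun v hv => ?_⟩
  obtain ⟨f, hfv⟩ : ∃ f, f = secW g v := ⟨_, rfl⟩
  have hJ' : ∀ u, ni (secW f u) J ≤ 1 → ∀ j, ni (secW f u) j ≤ 1 := by
    intro u
    rw [hfv, ← secW_append]
    exact hJ (v ++ u)
  rw [← hfv] at hv ⊢
  by_cases hst : ∃ m, ∀ u ∈ W X m, ni (secW f u) J ≤ 1
  · exfalso
    obtain ⟨m, hm⟩ := hst
    obtain ⟨n, hn⟩ := hv (ni f m)
    have h1 : ni f (m + n) ≤ ni f m := by
      rw [ni_add]
      have h2 : ni f m = ∑ u ∈ W X m, if NI (secW f u) then 1 else 0 := cnt_eq_sum _ _ _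
      rw [h2]
      apply Finset.sum_le_sum
      intro u hu
      split_ifs with h3
      · exact hJ' u (hm u hu) n
      · rw [ni_not h3]
    have h2 : ni f n ≤ ni f (m + n) := ni_mono f (Nat.le_add_left n m)
    omega
  · push Not at hst
    have hstep : ∀ m, ni f m + 1 ≤ ni f (m + J) := by
      intro m
      obtain ⟨u, hu, hu2⟩ := hst m
      rw [ni_add]
      have h2 : ni f m = ∑ u ∈ W X m, if NI (secW f u) then 1 else 0 := cnt_eq_sum _ _ _
      rw [h2, ← Finset.add_sum_erase _ _ hu, ← Finset.add_sum_erase (W X m)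
        (fun v => ni (secW f v) J) hu]
      have h3 : (if NI (secW f u) then 1 else 0) ≤ 1 := by split_ifs <;> omega
      have h4 : ∑ x ∈ (W X m).erase u, (if NI (secW f x) then 1 else 0) ≤
          ∑ x ∈ (W X m).erase u, ni (secW f x) J := by
        apply Finset.sum_le_sum
        intro x _
        split_ifs with h5
        · exact ni_pos h5 J
        · exact Nat.zero_le _
      omega
    intro k
    induction k with
    | zero => exact Nat.zero_le _
    | succ k ih =>
      have h1 := hstep (k * J)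
      rw [Nat.succ_mul]
      omega

theorem act_bdd (v : List X) (h : ¬ Bad (secW g v)) : ∃ c, ∀ n, ac (secW g v) n ≤ c := by
  obtain ⟨K, hK⟩ := unif_K hf
  unfold Bad at h
  push Not at h
  obtain ⟨c, hc⟩ := h
  obtain ⟨f, hfv⟩ : ∃ f, f = secW g v := ⟨_, rfl⟩
  have hK' : ∀ u, ¬ NI (secW f u) → ac (secW f u) K = 0 := by
    intro u
    rw [hfv, ← secW_append]
    exact hK (v ++ u)
  rw [← hfv] at hc ⊢
  have hle : ∀ h : T X, ∀ n, ac h n ≤ (W X n).card := by
    intro h n
    exact Finset.card_filter_le _ _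
  refine ⟨c * (W X K).card + ∑ n ∈ Finset.range K, (W X n).card, fun n => ?_⟩
  rcases Nat.lt_or_ge n K with h1 | h1
  · have h2 : (W X n).card ≤ ∑ n ∈ Finset.range K, (W X n).card :=
      Finset.single_le_sum (f := fun n => (W X n).card) (fun _ _ => Nat.zero_le _)
        (Finset.mem_range.2 h1)
    have h3 := hle f n
    omega
  · obtain ⟨m, hm⟩ : ∃ m, n = m + K := ⟨n - K, by omega⟩
    have h2 : ac f n ≤ ni f m * (W X K).card := by
      rw [hm, ac_add]
      have h3 : ni f m = ∑ u ∈ W X m, if NI (secW f u) then 1 else 0 := cnt_eq_sum _ _ _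
      rw [h3, Finset.sum_mul]
      apply Finset.sum_le_sum
      intro u _
      split_ifs with h4
      · rw [one_mul]
        exact hle _ _
      · rw [hK' u h4]
        exact Nat.zero_le _
    have h3 : ni f m * (W X K).card ≤ c * (W X K).card := Nat.mul_le_mul_right _ (hc m)
    omega

theorem bad_count {c : ℕ} (hc : ∀ n, ac g n ≤ c * (n + 1)) :
    ∃ C, ∀ n, {v : List X | v.length = n ∧ Bad (secW g v)}.ncard ≤ C := by
  obtain ⟨J, hJ⟩ := bad_lower hf
  refine ⟨c * J, fun n => ?_⟩
  have e1 : {v : List X | v.length = n ∧ Bad (secW g v)} =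
      ((W X n).filter fun v => Bad (secW g v) : Finset (List X)) := by
    ext v
    rw [Set.mem_ofPred_eq, Finset.mem_coe, Finset.mem_filter, mem_W]
  rw [e1, Set.ncard_coe_finset]
  have key : ∀ k, ((W X n).filter fun v => Bad (secW g v)).card * k ≤ c * (n + k * J + 1) := by
    intro k
    refine le_trans ?_ (hc (n + k * J))
    rw [ac_add, ← smul_eq_mul, ← Finset.sum_const, Finset.sum_filter]
    apply Finset.sum_le_sum
    intro v _
    split_ifs with h
    · exact (hJ v h k).trans (ni_le_ac _ _)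
    · exact Nat.zero_le _
  by_contra hcon
  rw [not_le] at hcon
  have h1 := key (c * (n + 1) + 1)
  have h2 : (c * J + 1) * (c * (n + 1) + 1) ≤
      ((W X n).filter fun v => Bad (secW g v)).card * (c * (n + 1) + 1) :=
    Nat.mul_le_mul_right _ hcon
  have h3 : (c * J + 1) * (c * (n + 1) + 1) =
      c * (n + (c * (n + 1) + 1) * J + 1) + 1 := by ring
  omega

end

theorem bad_child {f : T X} (h : Bad f) : ∃ x, Bad (sec f x) := by
  by_contra hcon
  push Not at hcon
  have h1 : ∀ v : List X, ∃ c, v.length = 1 → ∀ n, ni (secW f v) n ≤ c := by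
    intro v
    by_cases hv : v.length = 1
    · obtain ⟨x, rfl⟩ := List.length_eq_one_iff.1 hv
      have h2 := hcon x
      unfold Bad at h2
      push Not at h2
      obtain ⟨c, hc⟩ := h2
      exact ⟨c, fun _ => hc⟩
    · exact ⟨0, fun h => absurd h hv⟩
  choose c hc using h1
  obtain ⟨n, hn⟩ := h (∑ v ∈ W X 1, c v)
  have h2 : ni f n ≤ ni f (1 + n) := ni_mono f (Nat.le_add_left n 1)
  have h3 : ni f (1 + n) ≤ ∑ v ∈ W X 1, c v := by
    rw [ni_add]
    exact Finset.sum_le_sum fun v hv => hc v (mem_W.1 hv) n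
  omega

/-! ### rays -/

open Pool.Agent.Y708.SS (ex ray ex_length ex_prefix ex_onRay onRay_prefix)

theorem rays (B : List X → Prop) (hch0 : ∀ v, B v → ∃ x, B (v ++ [x])) (C : ℕ)
    (hC : ∀ n, {v : List X | v.length = n ∧ B v}.ncard ≤ C) :
    ∃ R : Finset (ℕ → X), ∀ v, B v → ∃ ρ ∈ R, OnRay ρ v := by
  by_cases hne : ∃ v, B v
  · obtain ⟨v₀, hv₀⟩ := hne
    obtain ⟨x₀, -⟩ := hch0 v₀ hv₀
    have h1 : ∀ v : List X, ∃ x, B v → B (v ++ [x]) := by
      intro v
      by_cases hv : B v
      · obtain ⟨x, hx⟩ := hch0 v hv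
        exact ⟨x, fun _ => hx⟩
      · exact ⟨x₀, fun h => absurd h hv⟩
    choose ch hch using h1
    have hex : ∀ m v, B v → B (ex ch m v) := by
      intro m v hv
      induction m with
      | zero => exact hv
      | succ m ih => exact hch _ ih
    let Nn : ℕ → Set (List X) := fun n => {v | v.length = n ∧ B v}
    have hfin : ∀ n, {v : List X | v.length = n}.Finite := fun n => List.finite_length_eq X n
    have hNfin : ∀ n, (Nn n).Finite := fun n => (hfin n).subset fun v hv => hv.1
    have hbd : BddAbove (Set.range fun n => (Nn n).ncard) := by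
      refine ⟨C, ?_⟩
      rintro _ ⟨n, rfl⟩
      exact hC n
    obtain ⟨n₀, hn₀⟩ := Nat.sSup_mem (Set.range_nonempty fun n => (Nn n).ncard) hbd
    have hmax : ∀ n, (Nn n).ncard ≤ (Nn n₀).ncard := by
      intro n
      have h2 := le_csSup hbd (Set.mem_range_self (f := fun n => (Nn n).ncard) n)
      rw [← hn₀] at h2
      exact h2
    have hsurj : ∀ m v, v ∈ Nn (n₀ + m) → ∃ v' ∈ Nn n₀, ex ch m v' = v := by
      intro m v hv
      have hsub : ex ch m '' Nn n₀ ⊆ Nn (n₀ + m) := by
        rintro _ ⟨w, hw, rfl⟩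
        exact ⟨by rw [ex_length, hw.1], hex m w hw.2⟩
      have hinj : Set.InjOn (ex ch m) (Nn n₀) := by
        intro a ha b hb hab
        have e1 : a <+: ex ch m a := ex_prefix ch (Nat.zero_le m) a
        have e2 : b <+: ex ch m a := by
          rw [hab]
          exact ex_prefix ch (Nat.zero_le m) b
        have e3 := List.prefix_of_prefix_length_le e1 e2 (by rw [ha.1, hb.1])
        exact e3.eq_of_length (by rw [ha.1, hb.1])
      have heq : ex ch m '' Nn n₀ = Nn (n₀ + m) := by
        apply Set.eq_of_subset_of_ncard_le hsub _ (hNfin _)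
        rw [hinj.ncard_image]
        exact hmax _
      rw [← heq] at hv
      exact hv
    refine ⟨(hNfin n₀).toFinset.image (ray ch), fun v hv => ?_⟩
    rcases le_total n₀ v.length with hle | hle
    · obtain ⟨v', hv', he⟩ := hsurj (v.length - n₀) v ⟨by omega, hv⟩
      refine ⟨ray ch v', Finset.mem_image_of_mem _ ((hNfin n₀).mem_toFinset.2 hv'), ?_⟩
      rw [← he]
      exact ex_onRay ch _ _
    · have hv' : ex ch (n₀ - v.length) v ∈ Nn n₀ :=
        ⟨by rw [ex_length]; omega, hex _ _ hv⟩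
      refine ⟨_, Finset.mem_image_of_mem (ray ch) ((hNfin n₀).mem_toFinset.2 hv'), ?_⟩
      exact onRay_prefix (ex_prefix ch (Nat.zero_le _) v) (ex_onRay ch 0 _)
  · exact ⟨∅, fun v hv => absurd ⟨v, hv⟩ hne⟩

/-! ### activity in terms of functions -/

theorem active_iff (f : T X) (u : List X) :
    (∃ w, f.1 (u ++ w) ≠ f.1 u ++ w) ↔ secW f u ≠ 1 := by
  constructor
  · rintro ⟨w, hw⟩ h
    apply hw
    rw [apply_append, h]
    rfl
  · intro h
    by_contra hcon
    push Not at hcon
    apply h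
    apply Subtype.ext
    apply Equiv.ext
    intro w
    have h1 := hcon w
    rw [apply_append, List.append_cancel_left_eq] at h1
    exact h1

theorem ncard_active (f : T X) (n : ℕ) :
    {v : List X | v.length = n ∧ ∃ w, f.1 (v ++ w) ≠ f.1 v ++ w}.ncard = ac f n := by
  unfold ac cnt
  rw [← Set.ncard_coe_finset]
  congr 1
  ext v
  rw [Set.mem_ofPred_eq, Finset.mem_coe, Finset.mem_filter, mem_W, active_iff]
  exact Iff.rfl

theorem range_finite {g : T X} (hf : (Sections g.1).Finite) : (Set.range (secW g)).Finite := by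
  refine Set.Finite.of_injOn (f := fun t : T X => (t.1 : List X → List X)) ?_ ?_ hf
  · rintro _ ⟨v, rfl⟩
    exact ⟨v, fun w => apply_append g v w⟩
  · intro a _ b _ h
    apply Subtype.ext
    exact DFunLike.coe_injective h

theorem sections_sub (g : T X) (v : List X) : Sections (secW g v).1 ⊆ Sections g.1 := by
  rintro h ⟨u, hu⟩
  refine ⟨v ++ u, fun w => ?_⟩
  rw [List.append_assoc, apply_append g v (u ++ w), hu w, apply_append g v u, List.append_assoc]

/-- (LIN) -/
theorem t_lin : S_LIN := by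
  intro X hX g0 hg0 hf0 hl
  obtain ⟨g, hg⟩ : ∃ g : T X, g.1 = g0 := ⟨⟨g0, hg0⟩, rfl⟩
  subst hg
  have hf := range_finite hf0
  obtain ⟨c, hc⟩ := hl
  have hc' : ∀ n, ac g n ≤ c * (n + 1) := by
    intro n
    rw [← ncard_active]
    exact hc n
  obtain ⟨C, hC⟩ := bad_count hf hc'
  obtain ⟨R, hR⟩ := rays (fun v => Bad (secW g v)) (by
    intro v hv
    obtain ⟨x, hx⟩ := bad_child hv
    refine ⟨x, ?_⟩
    rw [secW_append]
    exact hx) C hC
  have hF : ({f : Equiv.Perm (List X) | ∃ v, ¬ Bad (secW g v) ∧ (secW g v).1 = f}).Finite := by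
    refine (hf.image (fun t : T X => t.1)).subset ?_
    rintro f ⟨v, _, rfl⟩
    exact ⟨secW g v, ⟨v, rfl⟩, rfl⟩
  refine ⟨R, hF.toFinset, ?_, ?_⟩
  · intro f hfm
    rw [Set.Finite.mem_toFinset] at hfm
    obtain ⟨v, hv, rfl⟩ := hfm
    refine ⟨(secW g v).2, ?_⟩
    apply Pool.Agent.Y708.SS.t_aut X hX _ (secW g v).2 (hf0.subset (sections_sub g v))
    obtain ⟨c', hc2⟩ := act_bdd hf v hv
    refine ⟨c', fun n => ?_⟩
    rw [ncard_active]
    exact hc2 n
  · intro v hv
    refine ⟨v, [], (List.append_nil v).symm, (secW g v).1, ?_, fun w => apply_append g v w⟩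
    rw [Set.Finite.mem_toFinset]
    refine ⟨v, fun hb => ?_, rfl⟩
    obtain ⟨ρ, hρ, h1⟩ := hR v hb
    exact hv ρ hρ h1

end Pool.Agent.Y468.LA
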